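import Pool.Agent.RTF.Stmts
import Pool.Agent.Helper54_TRF.Asm
import Pool.Agent.Helper63_FB.BR

/-!
# Squad RTF, module L2A: the transfer
-/

set_option autoImplicit false

namespace Pool.Agent.RTF.H75

open Pool.Agent.Glue Pool.Agent.FB Pool.Agent.CD Pool.Agent.TRF

noncomputable section

variable {G : Type} [Group G] {I : Type} [Fintype I]

/-- Reduction of a coefficient modulo two. -/
def red (C : Cells G I) (i j : I) : G →₀ F2 :=
  (C.bd i j).coeff.mapRange (Int.cast : ℤ → F2) Int.cast_zero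

theorem red_sum (C : Cells G I) (i j : I) {M : Type} [AddCommMonoid M] (f : G → F2 → M)
    (h0 : ∀ g, f g 0 = 0) :
    (red C i j).sum f = (C.bd i j).coeff.sum fun g c => f g (c : F2) :=
  Finsupp.sum_mapRange_index h0

/-- The matrix of the coboundary over `K`. -/
def am (A : KA G) (C : Cells G I) (i j : I) : A.K :=
  (C.bd i j).coeff.sum fun h c => (c : F2) • A.s h

theorem delta_am (A : KA G) (C : Cells G I) (f : I → A.K) (i : I) :
    delta C A.kL f i = ∑ j, am A C i j * f j := by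
  refine Finset.sum_congr rfl fun j _ => ?_
  unfold am
  rw [Finsupp.sum_mul]
  refine Finsupp.sum_congr fun h _ => ?_
  rw [smul_mul_assoc]
  rfl

theorem card_out (C : Cells G I) (m : ℤ) {r : ℕ} (Cc : Fin r → I) (hC : Function.Injective Cc)
    (hdeg : ∀ l, (C.deg (Cc l) : ℤ) = m) :
    Nat.card {i : I // (C.deg i : ℤ) = m ∧ i ∉ Set.range Cc} + r = nc C m := by
  classical
  unfold nc
  rw [Nat.card_eq_fintype_card, Nat.card_eq_fintype_card, Fintype.card_subtype,
    Fintype.card_subtype]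
  have h1 : (Finset.univ.image Cc).card = r := by
    rw [Finset.card_image_of_injective _ hC, Finset.card_univ, Fintype.card_fin]
  have h2 : Finset.univ.image Cc ⊆ Finset.univ.filter (fun i => (C.deg i : ℤ) = m) := by
    intro i hi
    obtain ⟨l, -, rfl⟩ := Finset.mem_image.1 hi
    exact Finset.mem_filter.2 ⟨Finset.mem_univ _, hdeg l⟩
  have h3 : (Finset.univ.filter fun i => (C.deg i : ℤ) = m ∧ i ∉ Set.range Cc) =
      (Finset.univ.filter (fun i => (C.deg i : ℤ) = m)) \ (Finset.univ.image Cc) := by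
    ext i
    simp
  have h4 := Finset.card_sdiff_add_card_eq_card h2
  rw [h3, ← h4, h1]

/-- The bound for the cocycles. -/
theorem zbound (C : Cells G I) (K : Subgroup G) [K.Normal] [Fintype (G ⧸ K)] (m : ℤ) {r : ℕ}
    (R Cc : Fin r → I) (hC : Function.Injective Cc) (hdeg : ∀ l, (C.deg (Cc l) : ℤ) = m) :
    Module.finrank F2 (Cm F2 C (G ⧸ K) m ⊓
        LinearMap.ker (cobm F2 C (QuotientGroup.mk' K)) : Submodule F2 ((G ⧸ K) × I → F2)) +
      Fintype.card (G ⧸ K) * r ≤
    Fintype.card (G ⧸ K) * nc C m +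
      Module.finrank F2 (kerQ K fun l l' => red C (R l) (Cc l')) := by
  classical
  set Z : Submodule F2 ((G ⧸ K) × I → F2) := Cm F2 C (G ⧸ K) m ⊓
        LinearMap.ker (cobm F2 C (QuotientGroup.mk' K)) with hZ
  let J := (G ⧸ K) × {i : I // (C.deg i : ℤ) = m ∧ i ∉ Set.range Cc}
  let ρ : Z →ₗ[F2] (J → F2) :=
    (LinearMap.funLeft F2 F2 (fun j : J => (j.1, (j.2 : I)))).domRestrict Z
  have hρ : ∀ (f : Z) (j : J), ρ f j = (f : (G ⧸ K) × I → F2) (j.1, (j.2 : I)) :=
    fun _ _ => rfl
  have hz : ∀ f : LinearMap.ker ρ, ∀ q i, i ∉ Set.range Cc →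
      ((f : Z) : (G ⧸ K) × I → F2) (q, i) = 0 := by
    intro f q i hi
    by_cases hd : (C.deg i : ℤ) = m
    · have h1 := congrFun (LinearMap.mem_ker.1 f.2) (q, ⟨i, hd, hi⟩)
      rw [hρ] at h1
      exact h1
    · exact (f : Z).2.1 q i hd
  let Φ0 : LinearMap.ker ρ →ₗ[F2] (Fin r → (G ⧸ K) → F2) :=
    { toFun := fun f l q => ((f : Z) : (G ⧸ K) × I → F2) (q, Cc l)
      map_add' := fun _ _ => rfl
      map_smul' := fun _ _ => rfl }
  have hΦ : ∀ f, Φ0 f ∈ kerQ K fun l l' => red C (R l) (Cc l') := by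
    intro f l g
    have h1 : cobm F2 C (QuotientGroup.mk' K) ((f : Z) : (G ⧸ K) × I → F2) = 0 :=
      LinearMap.mem_ker.1 (f : Z).2.2
    have h2 := congrFun h1 ((g : G ⧸ K), R l)
    rw [Pool.Agent.FB.H63.cobm_apply] at h2
    rw [Pi.zero_apply] at h2
    refine Eq.trans ?_ h2
    refine Fintype.sum_of_injective Cc hC _ _ ?_ ?_
    · intro i hi
      refine Finset.sum_eq_zero fun h _ => ?_
      dsimp only
      rw [hz f _ i hi, smul_zero]
    · intro l'
      rw [red_sum]
      · refine Finsupp.sum_congr fun h _ => ?_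
        rw [zsmul_eq_mul]
        rfl
      · intro g'
        exact zero_mul _
  have hinj : Function.Injective (Φ0.codRestrict _ hΦ) := by
    rw [injective_iff_map_eq_zero]
    intro f hf
    have h1 : ∀ l q, ((f : Z) : (G ⧸ K) × I → F2) (q, Cc l) = 0 := fun l q =>
      congrFun (congrFun (congrArg Subtype.val hf) l) q
    apply Subtype.ext
    apply Subtype.ext
    funext ⟨q, i⟩
    by_cases hi : i ∈ Set.range Cc
    · obtain ⟨l, rfl⟩ := hi
      exact h1 l q
    · exact hz f q i hi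
  have hk := LinearMap.finrank_le_finrank_of_injective hinj
  have hr := LinearMap.finrank_range_add_finrank_ker ρ
  have hr2 : Module.finrank F2 (LinearMap.range ρ) ≤ Fintype.card J := by
    refine (Submodule.finrank_le _).trans ?_
    rw [Module.finrank_pi]
  have hJ : Fintype.card J + Fintype.card (G ⧸ K) * r = Fintype.card (G ⧸ K) * nc C m := by
    rw [← card_out C m Cc hC hdeg, mul_add, Fintype.card_prod, Nat.card_eq_fintype_card]
  rw [← hr]
  omega

theorem l2a (hLak : LakStmt) (hLow : LowStmt) (hBr : BrStmt) : L2aStmt := by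
  classical
  intro G _ A hS I _ C n hH
  have hb0 : 0 ≤ betti C n := by
    unfold betti
    positivity
  obtain ⟨r1, r2, R1, C1, R2, C2, -, hC1, -, hC2, -, dC1, -, dC2, hN, u1, u2⟩ :=
    hLak A.K I C.deg (am A C) n (by
      intro i j hij
      refine C.bd_deg i j fun h0 => hij ?_
      unfold am
      rw [h0]
      simp) (by
      intro x hx hx0
      obtain ⟨y, hy, hy0⟩ := hH x hx (by
        funext i
        rw [delta_am]
        exact hx0 i)
      exact ⟨y, hy, fun i => by rw [← delta_am, hy0]⟩)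
  refine le_antisymm (le_of_forall_pos_le_add fun ε hε => ?_) hb0
  rw [zero_add]
  obtain ⟨S, hS1, hS2⟩ := hLow G I C n (ε / 2) (half_pos hε)
  obtain ⟨K, hKn, hKf, hKS, k1, k2⟩ := hS r1 r2 (fun l l' => red C (R1 l) (C1 l'))
    (fun l l' => red C (R2 l) (C2 l')) (by
      have e : (Matrix.of fun i i' => (red C (R1 i) (C1 i')).sum fun h c => (c : F2) • A.s h) =
          Matrix.of fun l l' => am A C (R1 l) (C1 l') := by
        ext i i'
        exact red_sum C (R1 i) (C1 i') (fun g (c : F2) => c • A.s g) fun g => zero_smul F2 (A.s g)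
      rw [e]
      exact u1) (by
      have e : (Matrix.of fun i i' => (red C (R2 i) (C2 i')).sum fun h c => (c : F2) • A.s h) =
          Matrix.of fun l l' => am A C (R2 l) (C2 l') := by
        ext i i'
        exact red_sum C (R2 i) (C2 i') (fun g (c : F2) => c • A.s g) fun g => zero_smul F2 (A.s g)
      rw [e]
      exact u2) (ε / 4) (by linarith) S hS1
  have hlow := hS2 K hKn hKf hKS 2
  have hfin : Finite (G ⧸ K) := Subgroup.finite_quotient_of_finiteIndex
  have := Fintype.ofFinite (G ⧸ K)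
  have z1 := zbound C K ((n : ℤ) - 1) R1 C1 hC1 (by
    intro l
    have := dC1 l
    omega)
  have z2 := zbound C K (n : ℤ) R2 C2 hC2 (by
    intro l
    have := dC2 l
    omega)
  have hbr := hBr F2 G I C (G ⧸ K) (QuotientGroup.mk' K) (QuotientGroup.mk'_surjective K) (n : ℤ)
  rw [QuotientGroup.ker_mk'] at hbr
  have q1 := finrank_map_add (Cm F2 C (G ⧸ K) (n : ℤ)) (cobm F2 C (QuotientGroup.mk' K))
  have q2 := finrank_map_add (Cm F2 C (G ⧸ K) ((n : ℤ) - 1)) (cobm F2 C (QuotientGroup.mk' K))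
  have q3 : Module.finrank F2 (Cm F2 C (G ⧸ K) ((n : ℤ) - 1)) =
      Fintype.card (G ⧸ K) * nc C ((n : ℤ) - 1) := finrank_Cm C (G ⧸ K) ((n : ℤ) - 1)
  have hidx : K.index = Fintype.card (G ⧸ K) := by
    rw [Subgroup.index_eq_card, Nat.card_eq_fintype_card]
  have hnc : nc C (n : ℤ) ≤ r1 + r2 := by
    refine le_trans (le_of_eq ?_) hN
    unfold nc
    refine Nat.card_congr (Equiv.subtypeEquivRight fun i => ?_)
    omega
  set Z0 := Module.finrank F2 (Cm F2 C (G ⧸ K) (n : ℤ) ⊓
    LinearMap.ker (cobm F2 C (QuotientGroup.mk' K)) : Submodule F2 ((G ⧸ K) × I → F2))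
  set Z1 := Module.finrank F2 (Cm F2 C (G ⧸ K) ((n : ℤ) - 1) ⊓
    LinearMap.ker (cobm F2 C (QuotientGroup.mk' K)) : Submodule F2 ((G ⧸ K) × I → F2))
  have hmul := Nat.mul_le_mul_left (Fintype.card (G ⧸ K)) hnc
  rw [mul_add] at hmul
  have hh : hd F2 C K (n : ℤ) ≤ Module.finrank F2 (kerQ K fun l l' => red C (R1 l) (C1 l')) +
      Module.finrank F2 (kerQ K fun l l' => red C (R2 l) (C2 l')) := by
    omega
  have hq : (0 : ℝ) < K.index := by
    rw [hidx]
    exact_mod_cast Fintype.card_pos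
  have hh2 : (hd (ZMod 2) C K (n : ℤ) : ℝ) ≤ ε / 2 * K.index := by
    have h3 : (hd F2 C K (n : ℤ) : ℝ) ≤
      (Module.finrank F2 (kerQ K fun l l' => red C (R1 l) (C1 l')) : ℝ) +
      (Module.finrank F2 (kerQ K fun l l' => red C (R2 l) (C2 l')) : ℝ) := by exact_mod_cast hh
    refine h3.trans ?_
    linarith
  have h4 : (hd (ZMod 2) C K (n : ℤ) : ℝ) / K.index ≤ ε / 2 := by
    rw [div_le_iff₀ hq]
    exact hh2
  linarith

end

end Pool.Agent.RTF.H75
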